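import Mathlib
import Pool.Agent.W601.SQ.Stm

/-!
# Project SQ: trigonometric polynomials are dense
-/

set_option autoImplicit false

namespace Pool.Agent.W428.SQ.SW

open Pool.Agent.W601.SQ

section Basics

variable {ι : Type}

/-- trigonometric polynomials -/
noncomputable def tp (P : (ι →₀ ℤ) →₀ ℂ) (x : ι → Circle) : ℂ :=
  P.sum (fun k c => c * ((ch k x : Circle) : ℂ))

lemma tp_zero (x : ι → Circle) : tp (0 : (ι →₀ ℤ) →₀ ℂ) x = 0 := by
  simp [tp]

lemma tp_add (P Q : (ι →₀ ℤ) →₀ ℂ) (x : ι → Circle) : tp (P + Q) x = tp P x + tp Q x := by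
  unfold tp
  rw [Finsupp.sum_add_index']
  · intro k
    simp
  · intro k c c'
    ring

lemma tp_single (k : ι →₀ ℤ) (c : ℂ) (x : ι → Circle) :
    tp (Finsupp.single k c) x = c * ((ch k x : Circle) : ℂ) := by
  unfold tp
  rw [Finsupp.sum_single_index]
  simp

lemma ch_add (k k' : ι →₀ ℤ) (x : ι → Circle) : ch (k + k') x = ch k x * ch k' x := by
  unfold ch
  rw [Finsupp.prod_add_index']
  · intro i
    simp
  · intro i a b
    exact zpow_add _ _ _

lemma ch_zero (x : ι → Circle) : ch (0 : ι →₀ ℤ) x = 1 := by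
  simp [ch]

lemma ch_neg (k : ι →₀ ℤ) (x : ι → Circle) : ch (-k) x = (ch k x)⁻¹ := by
  rw [eq_inv_iff_mul_eq_one, ← ch_add, neg_add_cancel, ch_zero]

lemma ch_single (i : ι) (x : ι → Circle) : ch (Finsupp.single i 1) x = x i := by
  unfold ch
  rw [Finsupp.prod_single_index] <;> simp

lemma exists_mul (P Q : (ι →₀ ℤ) →₀ ℂ) : ∃ R : (ι →₀ ℤ) →₀ ℂ, ∀ x, tp R x = tp P x * tp Q x := by
  induction P using Finsupp.induction_linear with
  | zero => exact ⟨0, fun x => by rw [tp_zero, zero_mul]⟩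
  | add P P' hP hP' =>
    obtain ⟨R, hR⟩ := hP
    obtain ⟨R', hR'⟩ := hP'
    exact ⟨R + R', fun x => by rw [tp_add, tp_add, hR, hR', add_mul]⟩
  | single k c =>
    induction Q using Finsupp.induction_linear with
    | zero => exact ⟨0, fun x => by rw [tp_zero, mul_zero]⟩
    | add Q Q' hQ hQ' =>
      obtain ⟨R, hR⟩ := hQ
      obtain ⟨R', hR'⟩ := hQ'
      exact ⟨R + R', fun x => by rw [tp_add, tp_add, hR, hR', mul_add]⟩
    | single k' c' =>
      refine ⟨Finsupp.single (k + k') (c * c'), fun x => ?_⟩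
      rw [tp_single, tp_single, tp_single, ch_add, Circle.coe_mul]
      ring

lemma exists_star (P : (ι →₀ ℤ) →₀ ℂ) : ∃ R : (ι →₀ ℤ) →₀ ℂ, ∀ x, tp R x = star (tp P x) := by
  induction P using Finsupp.induction_linear with
  | zero => exact ⟨0, fun x => by rw [tp_zero, star_zero]⟩
  | add P P' hP hP' =>
    obtain ⟨R, hR⟩ := hP
    obtain ⟨R', hR'⟩ := hP'
    exact ⟨R + R', fun x => by rw [tp_add, tp_add, hR, hR', star_add]⟩
  | single k c =>
    refine ⟨Finsupp.single (-k) (star c), fun x => ?_⟩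
    rw [tp_single, tp_single, ch_neg, Circle.coe_inv_eq_conj, star_mul']
    rfl

/-- the star subalgebra of trigonometric polynomials -/
noncomputable def TA (ι : Type) : StarSubalgebra ℂ C(ι → Circle, ℂ) where
  carrier := {g | ∃ P : (ι →₀ ℤ) →₀ ℂ, ∀ x, g x = tp P x}
  mul_mem' := by
    rintro f g ⟨P, hP⟩ ⟨Q, hQ⟩
    obtain ⟨R, hR⟩ := exists_mul P Q
    exact ⟨R, fun x => by rw [ContinuousMap.mul_apply, hP, hQ, hR]⟩
  one_mem' := ⟨Finsupp.single 0 1, fun x => by rw [tp_single, ch_zero]; simp⟩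
  add_mem' := by
    rintro f g ⟨P, hP⟩ ⟨Q, hQ⟩
    exact ⟨P + Q, fun x => by rw [ContinuousMap.add_apply, hP, hQ, tp_add]⟩
  zero_mem' := ⟨0, fun x => by rw [tp_zero]; rfl⟩
  algebraMap_mem' := fun c => ⟨Finsupp.single 0 c, fun x => by
    rw [tp_single, ch_zero]
    simp [Algebra.algebraMap_eq_smul_one]⟩
  star_mem' := by
    rintro f ⟨P, hP⟩
    obtain ⟨R, hR⟩ := exists_star P
    exact ⟨R, fun x => by rw [ContinuousMap.star_apply, hP, hR]⟩

lemma TA_sep (ι : Type) : (TA ι).SeparatesPoints := by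
  intro x y hxy
  obtain ⟨i, hi⟩ := Function.ne_iff.1 hxy
  refine ⟨fun z => ((z i : Circle) : ℂ), ⟨⟨fun z => ((z i : Circle) : ℂ), ?_⟩, ?_, rfl⟩, ?_⟩
  · exact continuous_subtype_val.comp (continuous_apply i)
  · refine ⟨Finsupp.single (Finsupp.single i 1) 1, fun z => ?_⟩
    rw [tp_single, ch_single, one_mul]
    rfl
  · intro h
    exact hi (Subtype.ext h)

end Basics

theorem sw : S_SW := by
  intro ι f ε hε
  have htop := ContinuousMap.starSubalgebra_topologicalClosure_eq_top_of_separatesPoints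
    (TA ι) (TA_sep ι)
  have hf : f ∈ (TA ι).topologicalClosure := by
    rw [htop]
    trivial
  have hf' : f ∈ closure ((TA ι : StarSubalgebra ℂ C(ι → Circle, ℂ)) : Set C(ι → Circle, ℂ)) := hf
  obtain ⟨g, ⟨P, hP⟩, hg⟩ := Metric.mem_closure_iff.1 hf' ε hε
  refine ⟨P, fun x => ?_⟩
  have h1 : ‖f x - g x‖ ≤ ‖f - g‖ := ContinuousMap.norm_coe_le_norm (f - g) x
  rw [dist_eq_norm] at hg
  rw [hP x] at h1
  exact lt_of_le_of_lt h1 hg

end Pool.Agent.W428.SQ.SW
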